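import Pool.Agent.Y791.MP.Mo5
import Pool.Agent.Y791.MS.Stm

/-! # Constructibility and point counts for tuples of zero-cycles -/

set_option autoImplicit false

open MvPolynomial Filter Topology
open Pool.Agent.Y791.MS (S_ELIM S_HAS S_Z0)

namespace Pool.Agent.Y791.MP

variable [Base]

/-- The `i`-th monic polynomial of the tuple `z`, of degree `m i`. -/
noncomputable def tup {r : ℕ} (m : Fin r → ℕ) (z : Fin (∑ i, m i) → K) (i : Fin r) :
    Polynomial K :=
  mono fun j : Fin (m i) => z (finSigmaFinEquiv ⟨i, j⟩)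

/-- The tuples of monic polynomials of degrees `m i` whose greatest common divisor is
`n`-powerfree. -/
def Cset (n : ℕ) {r : ℕ} (m : Fin r → ℕ) : Set (Fin (∑ i, m i) → K) :=
  {z | ∀ x : K, ∃ i, (tup m z i).rootMultiplicity x < n}

theorem tup_monic {r : ℕ} (m : Fin r → ℕ) (z : Fin (∑ i, m i) → K) (i : Fin r) :
    (tup m z i).Monic := monic_gen _

/-- the generic polynomial -/
noncomputable def gen {r : ℕ} (m : Fin r → ℕ) (i : Fin r) :
    Polynomial (MvPolynomial (Fin (∑ i, m i)) K) :=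
  Polynomial.X ^ (m i) + ∑ j : Fin (m i), Polynomial.C (X (finSigmaFinEquiv ⟨i, j⟩)) *
    Polynomial.X ^ (j : ℕ)

theorem gen_map {r : ℕ} (m : Fin r → ℕ) (i : Fin r) (z : Fin (∑ i, m i) → K) :
    (gen m i).map (eval z) = tup m z i := by
  simp [gen, tup, mono, Polynomial.map_sum]

theorem hasse_map {R S : Type} [CommRing R] [CommRing S] (f : R →+* S) (j : ℕ)
    (p : Polynomial R) : (Polynomial.hasseDeriv j p).map f = Polynomial.hasseDeriv j (p.map f) := by
  ext i
  rw [Polynomial.coeff_map, Polynomial.hasseDeriv_coeff, Polynomial.hasseDeriv_coeff,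
    Polynomial.coeff_map, map_mul, map_natCast]

theorem closed_bad (hE : S_ELIM) (hH : S_HAS) {n s : ℕ} (hn : 1 ≤ n) (m : Fin (s + 1) → ℕ) :
    ∃ R : Finset (MvPolynomial (Fin (∑ i, m i)) K), ∀ z : Fin (∑ i, m i) → K,
      (∀ P ∈ R, eval z P = 0) ↔ z ∉ Cset n m := by
  obtain ⟨R, hR⟩ := hE K (∑ i, m i) ((s + 1) * n) (gen m 0) (monic_gen _)
    (fun l => Polynomial.hasseDeriv ((finProdFinEquiv.symm l).2 : ℕ) (gen m (finProdFinEquiv.symm l).1))
  refine ⟨R, fun z => ?_⟩
  rw [hR z]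
  unfold Cset
  rw [Set.mem_ofPred_eq]
  push Not
  refine exists_congr fun x => ?_
  rw [gen_map]
  constructor
  · rintro ⟨-, h⟩ i
    rw [hH K _ x n (tup_monic m z i).ne_zero]
    intro j hj
    have := h (finProdFinEquiv (i, ⟨j, hj⟩))
    rw [Equiv.symm_apply_apply, hasse_map, gen_map] at this
    exact this
  · intro h
    refine ⟨?_, fun l => ?_⟩
    · have := (hH K _ x n (tup_monic m z 0).ne_zero).1 (h 0) 0 (by omega)
      rwa [Polynomial.hasseDeriv_zero'] at this
    · rw [hasse_map, gen_map]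
      exact (hH K _ x n (tup_monic m z _).ne_zero).1 (h _) _ (Fin.is_lt _)

theorem constr_forall {N : ℕ} (R : Finset (MvPolynomial (Fin N) K)) :
    Constr {z : Fin N → K | ∀ P ∈ R, eval z P = 0} := by
  classical
  induction R using Finset.induction_on with
  | empty =>
    have : {z : Fin N → K | ∀ P ∈ (∅ : Finset (MvPolynomial (Fin N) K)), eval z P = 0} = Set.univ := by
      ext z; simp
    rw [this]
    exact constr_univ N
  | insert P R _ ih =>
    have : {z : Fin N → K | ∀ Q ∈ insert P R, eval z Q = 0} =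
        {z : Fin N → K | eval z P = 0} ∩ {z : Fin N → K | ∀ Q ∈ R, eval z Q = 0} := by
      ext z; simp
    rw [this]
    exact Constr.inter (Constr.zero P) ih

theorem constr_Cset (hE : S_ELIM) (hH : S_HAS) {n s : ℕ} (hn : 1 ≤ n) (m : Fin (s + 1) → ℕ) :
    Constr (Cset n m) := by
  obtain ⟨R, hR⟩ := closed_bad hE hH hn m
  have h1 : (Cset n m)ᶜ = {z | ∀ P ∈ R, eval z P = 0} := by
    ext z
    rw [Set.mem_compl_iff]
    exact (hR z).symm
  have h2 := Constr.compl (constr_forall R)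
  rwa [← h1, compl_compl] at h2

theorem cnt_lower {N : ℕ} {P : MvPolynomial (Fin N) K} (hP : P ≠ 0) {S : Set (Fin N → K)}
    (hS : ∀ z, z ∉ S → eval z P = 0) (hN : 1 ≤ N) (j : ℕ) :
    (q j : ℝ) ^ N - P.totalDegree * (q j : ℝ) ^ (N - 1) ≤ cnt j S := by
  classical
  have hq : 1 < q j := by
    unfold q
    exact Nat.one_lt_pow (by positivity) Base.prime.out.one_lt
  have hqr : (0 : ℝ) < q j := q_pos j
  have hfin := pts_finite_aux (q j) hq
  have hcard : hfin.toFinset.card = q j := by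
    rw [← Set.ncard_eq_toFinset_card _ hfin]
    unfold q
    exact card_fixed _ (Nat.mul_pos (by norm_num) (Nat.factorial_pos j))
  have hsz := MvPolynomial.schwartz_zippel_totalDegree hP hfin.toFinset
  rw [hcard] at hsz
  have hU : cnt j (Set.univ : Set (Fin N → K)) = cnt j S + cnt j Sᶜ := by
    rw [← cnt_union]
    · rw [Set.union_compl_self]
    · exact disjoint_compl_right
  have hle : cnt j Sᶜ ≤ cnt j {z : Fin N → K | eval z P = 0} := by
    unfold cnt
    refine Set.ncard_le_ncard ?_ (pts_finite j _)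
    rintro z ⟨hz1, hz2⟩
    exact ⟨hS z hz1, hz2⟩
  have hC : cnt j {z : Fin N → K | eval z P = 0} =
      ((Fintype.piFinset fun _ : Fin N => hfin.toFinset).filter
        fun z => eval z P = 0).card := by
    unfold cnt
    rw [← Set.ncard_coe_finset]
    congr 1
    ext z
    simp [pts, and_comm]
  rw [← hC] at hsz
  have h1 : (cnt j {z : Fin N → K | eval z P = 0} : ℝ) ≤
      P.totalDegree * (q j : ℝ) ^ (N - 1) := by
    have h2 : ((cnt j {z : Fin N → K | eval z P = 0} : ℚ≥0) : ℝ) /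
        ((q j : ℚ≥0) : ℝ) ^ N ≤ ((P.totalDegree : ℚ≥0) : ℝ) / ((q j : ℚ≥0) : ℝ) := by
      exact_mod_cast hsz
    simp only [NNRat.cast_natCast] at h2
    rw [div_le_div_iff₀ (by positivity) hqr] at h2
    have h3 : (q j : ℝ) ^ N = (q j : ℝ) ^ (N - 1) * q j := by
      rw [← pow_succ]
      congr 1
      omega
    rw [h3, ← mul_assoc] at h2
    exact le_of_mul_le_mul_right h2 hqr
  rw [cnt_univ] at hU
  have h4 : (q j : ℝ) ^ N = cnt j S + cnt j Sᶜ := by exact_mod_cast hU
  have h5 : (cnt j Sᶜ : ℝ) ≤ cnt j {z : Fin N → K | eval z P = 0} := by exact_mod_cast hle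
  linarith

/-- the number of tuples with `n`-powerfree greatest common divisor is of the full order -/
theorem cnt_Cset (hE : S_ELIM) (hH : S_HAS) (hZ : S_Z0) {n s e : ℕ} (hn : 1 ≤ n)
    (hsn : 2 ≤ (s + 1) * n) (he : 1 ≤ e) :
    ∃ C : ℕ, ∀ j, (q j : ℝ) ^ ((s + 1) * e) - C * (q j : ℝ) ^ ((s + 1) * e - 1) ≤
      cnt j (Cset n (fun _ : Fin (s + 1) => e)) := by
  obtain ⟨R, hR⟩ := closed_bad hE hH hn (fun _ : Fin (s + 1) => e)
  obtain ⟨a, ha⟩ := hZ K (s + 1) n e (by omega) hn hsn he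
  obtain ⟨z, hzd⟩ : ∃ z : Fin (∑ i, (fun _ : Fin (s + 1) => e) i) → K,
      z = fun l => a (finSigmaFinEquiv.symm l).1 (finSigmaFinEquiv.symm l).2 := ⟨_, rfl⟩
  have hz : z ∈ Cset n (fun _ : Fin (s + 1) => e) := by
    intro x
    rw [hzd]
    obtain ⟨i, hi⟩ := ha x
    refine ⟨i, ?_⟩
    unfold tup mono
    simp only [Equiv.symm_apply_apply]
    exact hi
  have h1 : ∃ P ∈ R, eval z P ≠ 0 := by
    by_contra hno
    push Not at hno
    exact (hR z).1 hno hz
  obtain ⟨P, hP, hP0⟩ := h1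
  have hN : ∑ i, (fun _ : Fin (s + 1) => e) i = (s + 1) * e := by simp
  refine ⟨P.totalDegree, fun j => ?_⟩
  have hP1 : P ≠ 0 := by
    rintro rfl
    exact hP0 (map_zero _)
  have h2 : ∀ N' : ℕ, N' = ∑ i, (fun _ : Fin (s + 1) => e) i →
      (q j : ℝ) ^ N' - P.totalDegree * (q j : ℝ) ^ (N' - 1) ≤
        cnt j (Cset n (fun _ : Fin (s + 1) => e)) := by
    rintro N' rfl
    exact cnt_lower hP1 (fun z hz => (hR z).2 hz P hP) (by
      rw [hN]
      exact Nat.mul_pos (Nat.succ_pos s) he) j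
  exact h2 _ hN.symm

end Pool.Agent.Y791.MP
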