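import Mathlib

/-!
# Constructible sets over an algebraic closure of `𝔽_p` and their points

Adapted from `Pool.Agent.Helper449.MST.Defs` and `Pool.Agent.Helper449.MST.D` (`p = 3` there).
-/

set_option autoImplicit false

namespace Pool.Agent.Y791.MP

open MvPolynomial

/-- A prime number `p`, the characteristic. -/
class Base where
  /-- the prime number -/
  p : ℕ
  /-- it is prime -/
  prime : Fact p.Prime

attribute [instance] Base.prime

variable [Base]

/-- The ground field: an algebraic closure of the field with `p` elements. -/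
abbrev K : Type := AlgebraicClosure (ZMod Base.p)

/-- The Zariski-constructible subsets of affine space `K^n`: the Boolean algebra generated by the
zero sets of polynomials. -/
inductive Constr {n : ℕ} : Set (Fin n → K) → Prop
  | zero (P : MvPolynomial (Fin n) K) : Constr {x | eval x P = 0}
  | compl {S : Set (Fin n → K)} : Constr S → Constr Sᶜ
  | inter {S T : Set (Fin n → K)} : Constr S → Constr T → Constr (S ∩ T)

/-- `f` is regular on `S`: its coordinates are quotients of polynomials whose denominators have no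
zero on `S`. -/
def RegularOn {n m : ℕ} (S : Set (Fin n → K)) (f : (Fin n → K) → (Fin m → K)) : Prop :=
  ∀ i, ∃ P Q : MvPolynomial (Fin n) K, ∀ x ∈ S, eval x Q ≠ 0 ∧ f x i = eval x P / eval x Q

/-- `S` and `T` are isomorphic: there are mutually inverse regular maps between them. -/
def Isom {n m : ℕ} (S : Set (Fin n → K)) (T : Set (Fin m → K)) : Prop :=
  ∃ (f : (Fin n → K) → (Fin m → K)) (g : (Fin m → K) → (Fin n → K)),
    RegularOn S f ∧ RegularOn T g ∧ Set.MapsTo f S T ∧ Set.MapsTo g T S ∧
      (∀ x ∈ S, g (f x) = x) ∧ ∀ y ∈ T, f (g y) = y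

theorem constr_univ (n : ℕ) : Constr (Set.univ : Set (Fin n → K)) := by
  have h := Constr.zero (n := n) 0
  have : {x : Fin n → K | eval x (0 : MvPolynomial (Fin n) K) = 0} = Set.univ := by
    ext x; simp
  rwa [this] at h

/-- `q_j = p^{54 j!}` -/
def q (j : ℕ) : ℕ := Base.p ^ (54 * j.factorial)

/-- the points of `S` with coordinates in the field with `q_j` elements -/
def pts {n : ℕ} (j : ℕ) (S : Set (Fin n → K)) : Set (Fin n → K) := {x | x ∈ S ∧ ∀ i, x i ^ q j = x i}

/-- their number -/
noncomputable def cnt {n : ℕ} (j : ℕ) (S : Set (Fin n → K)) : ℕ := (pts j S).ncard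

theorem card_fixed (m : ℕ) (hm : 0 < m) : {z : K | z ^ (Base.p ^ m) = z}.ncard = Base.p ^ m := by
  classical
  have h3 : 1 < Base.p ^ m := Nat.one_lt_pow hm.ne' Base.prime.out.one_lt
  have : CharP K Base.p := by
    have : CharP (ZMod Base.p) Base.p := ZMod.charP Base.p
    exact charP_of_injective_algebraMap (algebraMap (ZMod Base.p) K).injective Base.p
  obtain ⟨f, hf⟩ : ∃ f : Polynomial K, f = Polynomial.X ^ (Base.p ^ m) - Polynomial.X := ⟨_, rfl⟩
  have hdeg : f.natDegree = Base.p ^ m := by
    rw [hf]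
    exact FiniteField.X_pow_card_sub_X_natDegree_eq K h3
  have hne : f ≠ 0 := by
    intro h0
    rw [h0, Polynomial.natDegree_zero] at hdeg
    omega
  have hsep : f.Separable := by
    rw [hf]
    exact galois_poly_separable Base.p (Base.p ^ m) (dvd_pow_self Base.p hm.ne')
  have hnod : f.roots.Nodup := Polynomial.nodup_roots hsep
  have hcard : f.roots.card = f.natDegree := IsAlgClosed.card_roots_eq_natDegree
  have hset : {z : K | z ^ (Base.p ^ m) = z} = ↑(f.roots.toFinset) := by
    ext z
    rw [Set.mem_ofPred_eq, Finset.mem_coe, Multiset.mem_toFinset, Polynomial.mem_roots hne,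
      Polynomial.IsRoot.def, hf]
    simp [sub_eq_zero]
  rw [hset, Set.ncard_coe_finset, Multiset.toFinset_card_of_nodup hnod, hcard, hdeg]

theorem eventually_fixed (z : K) : ∃ j₀, ∀ j ≥ j₀, z ^ q j = z := by
  have hz : IsIntegral (ZMod Base.p) z := (Algebra.IsAlgebraic.isAlgebraic z).isIntegral
  have h3 : FiniteDimensional (ZMod Base.p) (IntermediateField.adjoin (ZMod Base.p) {z}) :=
    IntermediateField.adjoin.finiteDimensional hz
  have : Finite (IntermediateField.adjoin (ZMod Base.p) {z}) := Module.finite_of_finite (ZMod Base.p)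
  have : Fintype (IntermediateField.adjoin (ZMod Base.p) {z}) := Fintype.ofFinite _
  obtain ⟨m, hmdef⟩ : ∃ m, m = Module.finrank (ZMod Base.p) (IntermediateField.adjoin (ZMod Base.p) {z}) :=
    ⟨_, rfl⟩
  have hm : 0 < m := by rw [hmdef]; exact Module.finrank_pos
  have hcard : Fintype.card (IntermediateField.adjoin (ZMod Base.p) {z}) = Base.p ^ m := by
    rw [Module.card_eq_pow_finrank (K := ZMod Base.p), ZMod.card, ← hmdef]
  have h1 : z ^ (Base.p ^ m) = z := by
    have h := FiniteField.pow_card (⟨z, IntermediateField.mem_adjoin_simple_self (ZMod Base.p) z⟩ :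
      IntermediateField.adjoin (ZMod Base.p) {z})
    have h' := congrArg Subtype.val h
    rw [hcard] at h'
    simpa using h'
  have h2 : ∀ k : ℕ, z ^ (Base.p ^ (m * k)) = z := by
    intro k
    induction k with
    | zero => simp
    | succ k ih => rw [mul_add, mul_one, pow_add, pow_mul, ih, h1]
  refine ⟨m, fun j hj => ?_⟩
  obtain ⟨c, hc⟩ : m ∣ 54 * j.factorial := Dvd.dvd.mul_left (Nat.dvd_factorial hm hj) 54
  rw [q, hc, h2]

theorem pts_finite_aux (q0 : ℕ) (hq : 1 < q0) : {z : K | z ^ q0 = z}.Finite := by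
  have hne : (Polynomial.X ^ q0 - Polynomial.X : Polynomial K) ≠ 0 := by
    intro h
    have h2 := congrArg (fun p : Polynomial K => p.coeff q0) h
    simp only [Polynomial.coeff_sub, Polynomial.coeff_X_pow, Polynomial.coeff_X,
      Polynomial.coeff_zero] at h2
    rw [if_neg (by omega : ¬ (1 = q0))] at h2
    simp at h2
  refine (Polynomial.finite_setOfPred_isRoot hne).subset ?_
  intro z hz
  simp only [Set.mem_ofPred_eq, Polynomial.IsRoot.def, Polynomial.eval_sub, Polynomial.eval_pow,
    Polynomial.eval_X] at hz ⊢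
  rw [hz, sub_self]

theorem pts_finite {n : ℕ} (j : ℕ) (S : Set (Fin n → K)) : (pts j S).Finite := by
  have hq : 1 < q j := by
    unfold q
    exact Nat.one_lt_pow (by positivity) Base.prime.out.one_lt
  have hf : (Set.pi Set.univ (fun _ : Fin n => {z : K | z ^ q j = z})).Finite :=
    Set.Finite.pi (fun _ => pts_finite_aux (q j) hq)
  refine hf.subset ?_
  intro x hx i _
  exact hx.2 i

theorem cnt_univ (n j : ℕ) : cnt j (Set.univ : Set (Fin n → K)) = q j ^ n := by
  have h1 : pts j (Set.univ : Set (Fin n → K)) =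
      Set.pi Set.univ (fun _ : Fin n => {z : K | z ^ q j = z}) := by
    ext x
    simp [pts, Set.mem_pi]
  have h2 : {z : K | z ^ q j = z}.ncard = q j := by
    unfold q
    exact card_fixed _ (Nat.mul_pos (by norm_num) (Nat.factorial_pos j))
  have h3 : cnt j (Set.univ : Set (Fin n → K)) =
      Nat.card (Set.pi Set.univ (fun _ : Fin n => {z : K | z ^ q j = z})) := by
    unfold cnt
    rw [h1]
    rfl
  have h4 : Nat.card ({z : K | z ^ q j = z} : Set K) = q j := h2
  rw [h3, Nat.card_congr (Equiv.Set.univPi (fun _ : Fin n => {z : K | z ^ q j = z})), Nat.card_pi]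
  simp only [h4, Finset.prod_const, Finset.card_univ, Fintype.card_fin]

theorem cnt_union {n : ℕ} (j : ℕ) (S T : Set (Fin n → K)) (h : Disjoint S T) :
    cnt j (S ∪ T) = cnt j S + cnt j T := by
  have h1 : pts j (S ∪ T) = pts j S ∪ pts j T := by
    ext x
    simp only [pts, Set.mem_ofPred_eq, Set.mem_union]
    tauto
  have h2 : Disjoint (pts j S) (pts j T) := by
    rw [Set.disjoint_left] at h ⊢
    intro x hx hx'
    exact h hx.1 hx'.1
  simp only [cnt]
  rw [h1, Set.ncard_union_eq h2 (pts_finite j S) (pts_finite j T)]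

open Filter in
theorem cnt_iso_eval {n : ℕ} (P : MvPolynomial (Fin n) K) :
    ∀ᶠ j in atTop, ∀ x : Fin n → K, (∀ i, x i ^ q j = x i) → (eval x P) ^ q j = eval x P := by
  induction P using MvPolynomial.induction_on with
  | C a =>
    obtain ⟨j₀, hj⟩ := eventually_fixed a
    filter_upwards [eventually_ge_atTop j₀] with j hj' x hx
    rw [eval_C]
    exact hj j hj'
  | add p r hp hr =>
    filter_upwards [hp, hr] with j h1 h2 x hx
    rw [map_add]
    unfold q at *
    rw [add_pow_expChar_pow, h1 x hx, h2 x hx]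
  | mul_X p i hp =>
    filter_upwards [hp] with j h1 x hx
    rw [map_mul, eval_X, mul_pow, h1 x hx, hx i]

open Filter in
theorem cnt_iso_reg {n m : ℕ} (S : Set (Fin n → K)) (f : (Fin n → K) → (Fin m → K))
    (hf : RegularOn S f) : ∀ᶠ j in atTop, ∀ x ∈ pts j S, ∀ i, f x i ^ q j = f x i := by
  have h : ∀ i, ∀ᶠ j in atTop, ∀ x ∈ pts j S, f x i ^ q j = f x i := by
    intro i
    obtain ⟨P, Q, hPQ⟩ := hf i
    filter_upwards [cnt_iso_eval P, cnt_iso_eval Q] with j h1 h2 x hx
    rw [(hPQ x hx.1).2, div_pow, h1 x hx.2, h2 x hx.2]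
  filter_upwards [eventually_all.2 h] with j hj x hx i
  exact hj i x hx

open Filter in
theorem cnt_iso {n m : ℕ} (S : Set (Fin n → K)) (T : Set (Fin m → K)) (h : Isom S T) :
    ∃ j₀, ∀ j ≥ j₀, cnt j S = cnt j T := by
  obtain ⟨f, g, hf, hg, hST, hTS, hgf, hfg⟩ := h
  rw [← eventually_atTop]
  filter_upwards [cnt_iso_reg S f hf, cnt_iso_reg T g hg] with j h1 h2
  have h3 : pts j T = f '' pts j S := by
    ext y
    constructor
    · intro hy
      exact ⟨g y, ⟨hTS hy.1, h2 y hy⟩, hfg y hy.1⟩
    · rintro ⟨x, hx, rfl⟩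
      exact ⟨hST hx.1, h1 x hx⟩
  unfold cnt
  rw [h3, Set.ncard_image_of_injOn]
  intro x hx x' hx' hxx
  rw [← hgf x hx.1, ← hgf x' hx'.1, hxx]

theorem cnt_growth_goingup {R A : Type} [CommRing R] [CommRing A] [Algebra R A]
    [Algebra.IsIntegral R A] (hinj : Function.Injective (algebraMap R A)) :
    ∀ (k : ℕ) (f : Fin (k + 1) → PrimeSpectrum R), StrictMono f →
      ∃ g : Fin (k + 1) → PrimeSpectrum A, StrictMono g ∧
        ∀ i, PrimeSpectrum.comap (algebraMap R A) (g i) = f i := by
  intro k
  induction k with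
  | zero =>
    intro f hf
    haveI := (f 0).isPrime
    obtain ⟨Q, -, hQ, hQ2⟩ := Ideal.exists_ideal_over_prime_of_isIntegral (f 0).asIdeal
      (⊥ : Ideal A) (by
        rw [← RingHom.ker_eq_comap_bot, (RingHom.injective_iff_ker_eq_bot _).1 hinj]
        exact bot_le)
    refine ⟨fun _ => ⟨Q, hQ⟩, fun a b hab => ?_, fun i => ?_⟩
    · exfalso
      have ha := a.2
      have hb := b.2
      rw [Fin.lt_def] at hab
      omega
    · have : i = 0 := Fin.ext (by have := i.2; simp)
      subst this
      exact PrimeSpectrum.ext hQ2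
  | succ k ih =>
    intro f hf
    obtain ⟨g, hg, hgf⟩ := ih (fun i => f i.castSucc) (hf.comp Fin.strictMono_castSucc)
    haveI := (f (Fin.last (k + 1))).isPrime
    obtain ⟨Q, hQ0, hQ, hQ2⟩ := Ideal.exists_ideal_over_prime_of_isIntegral
      (f (Fin.last (k + 1))).asIdeal (g (Fin.last k)).asIdeal (by
        have h1 := congrArg PrimeSpectrum.asIdeal (hgf (Fin.last k))
        have h2 : f (Fin.last k).castSucc ≤ f (Fin.last (k + 1)) :=
          hf.monotone (Fin.le_last _)
        change (PrimeSpectrum.comap (algebraMap R A) (g (Fin.last k))).asIdeal ≤ _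
        rw [h1]; exact h2)
    refine ⟨Fin.snoc (α := fun _ => PrimeSpectrum A) g ⟨Q, hQ⟩, ?_, ?_⟩
    · rw [Fin.strictMono_iff_lt_succ]
      intro i
      refine Fin.lastCases ?_ (fun i => ?_) i
      · rw [Fin.succ_last, Fin.snoc_last, Fin.snoc_castSucc]
        refine lt_of_le_of_ne hQ0 ?_
        intro h
        have h3 := congrArg (PrimeSpectrum.comap (algebraMap R A)) h
        rw [hgf] at h3
        have h4 : PrimeSpectrum.comap (algebraMap R A) ⟨Q, hQ⟩ = f (Fin.last (k + 1)) :=
          PrimeSpectrum.ext hQ2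
        rw [h4] at h3
        exact absurd (hf.injective h3) (Fin.castSucc_lt_last _).ne
      · rw [Fin.succ_castSucc, Fin.snoc_castSucc, Fin.snoc_castSucc]
        exact hg (Fin.castSucc_lt_succ)
    · intro i
      refine Fin.lastCases ?_ (fun i => ?_) i
      · rw [Fin.snoc_last]; exact PrimeSpectrum.ext hQ2
      · rw [Fin.snoc_castSucc]; exact hgf i

theorem cnt_growth_dim {s : ℕ} {A : Type} [CommRing A] (g : MvPolynomial (Fin s) K →+* A)
    (hinj : Function.Injective g) (hint : g.IsIntegral) (D : ℕ)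
    (h : ringKrullDim A ≤ (D : WithBot ℕ∞)) : s ≤ D := by
  letI := g.toAlgebra
  haveI : Algebra.IsIntegral (MvPolynomial (Fin s) K) A := ⟨hint⟩
  have h1 : ringKrullDim (MvPolynomial (Fin s) K) = (s : WithBot ℕ∞) := by
    rw [MvPolynomial.ringKrullDim_of_isNoetherianRing, ringKrullDim_eq_zero_of_field]; simp
  obtain ⟨l, hl⟩ := Order.le_krullDim_iff.1
    (show ((s : ℕ) : WithBot ℕ∞) ≤ Order.krullDim (PrimeSpectrum (MvPolynomial (Fin s) K))
      from h1.ge)
  obtain ⟨g', hg', -⟩ := cnt_growth_goingup (R := MvPolynomial (Fin s) K) (A := A) hinj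
    l.length l.toFun l.strictMono
  have h2 := Order.LTSeries.length_le_krullDim (LTSeries.mk l.length g' hg')
  have h3 : ((s : ℕ) : WithBot ℕ∞) ≤ (D : WithBot ℕ∞) := by
    rw [← hl]; exact le_trans h2 h
  exact_mod_cast h3

theorem cnt_growth_frob {n : ℕ} (Y : MvPolynomial (Fin n) K) :
    ∃ j₀ : ℕ, ∀ j ≥ j₀, ∀ z : Fin n → K, (∀ i, z i ^ q j = z i) → (eval z Y) ^ q j = eval z Y := by
  classical
  choose c hc using fun a : K => eventually_fixed a
  refine ⟨Y.support.sup fun m => c (coeff m Y), fun j hj z hz => ?_⟩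
  have hF : ∀ x : K, iterateFrobenius K Base.p (54 * j.factorial) x = x ^ q j := fun x => by
    rw [iterateFrobenius_def]; rfl
  have h1 : (iterateFrobenius K Base.p (54 * j.factorial)) (eval z Y) =
      eval₂ ((iterateFrobenius K Base.p (54 * j.factorial)).comp (RingHom.id K))
        ((iterateFrobenius K Base.p (54 * j.factorial)) ∘ z) Y :=
    MvPolynomial.eval₂_comp_left _ (RingHom.id K) z Y
  have h2 : MvPolynomial.map (iterateFrobenius K Base.p (54 * j.factorial)) Y = Y := by
    ext m
    rw [MvPolynomial.coeff_map, hF]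
    by_cases hm : m ∈ Y.support
    · exact hc _ j (le_trans (Finset.le_sup (f := fun m => c (coeff m Y)) hm) hj)
    · rw [MvPolynomial.notMem_support_iff] at hm
      rw [hm, zero_pow]
      exact (pow_pos Base.prime.out.pos _).ne'
  have h3 : ((iterateFrobenius K Base.p (54 * j.factorial)) ∘ z) = z := by
    funext i
    rw [Function.comp_apply, hF, hz i]
  rw [← hF, h1, h3, RingHom.comp_id, ← MvPolynomial.eval_map, h2]

theorem cnt_growth {n : ℕ} (S : Set (Fin n → K)) (D : ℕ)
    (h : ringKrullDim (MvPolynomial (Fin n) K ⧸ vanishingIdeal K S) ≤ (D : WithBot ℕ∞)) :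
    ∃ C j₀ : ℕ, ∀ j ≥ j₀, cnt j S ≤ C * q j ^ D := by
  classical
  rcases S.eq_empty_or_nonempty with rfl | ⟨z₀, hz₀⟩
  · refine ⟨0, 0, fun j _ => ?_⟩
    simp [cnt, pts]
  have hne : vanishingIdeal K S ≠ ⊤ := by
    intro ht
    have h1 : (1 : MvPolynomial (Fin n) K) ∈ vanishingIdeal K S := ht ▸ Submodule.mem_top
    have := h1 z₀ hz₀
    simp at this
  obtain ⟨s, -, g, ginj, gint⟩ := exists_integral_inj_algHom_of_quotient (vanishingIdeal K S) hne
  have hsD : s ≤ D := cnt_growth_dim g.toRingHom ginj gint D h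
  choose Y hY using fun i : Fin s => Ideal.Quotient.mk_surjective (g (X i))
  choose P hPm hP using fun l : Fin n => gint (Ideal.Quotient.mk _ (X l))
  choose c hc using fun i : Fin s => cnt_growth_frob (Y i)
  have hq1 : ∀ j, 1 ≤ q j := fun j => Nat.one_le_pow _ _ Base.prime.out.pos
  refine ⟨∏ l, (P l).natDegree, Finset.univ.sup c, fun j hj => ?_⟩
  set φ : (Fin n → K) → (Fin s → K) := fun z i => eval z (Y i) with hφ
  have hfib : ∀ y : Fin s → K, ((pts_finite j S).toFinset.filter fun z => φ z = y).card ≤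
      ∏ l, (P l).natDegree := by
    intro y
    refine le_trans (Finset.card_le_card (t := Fintype.piFinset fun l =>
      ((P l).map (eval y)).roots.toFinset) ?_) ?_
    · intro z hz
      rw [Finset.mem_filter, Set.Finite.mem_toFinset] at hz
      obtain ⟨⟨hzS, -⟩, hzy⟩ := hz
      rw [Fintype.mem_piFinset]
      intro l
      rw [Multiset.mem_toFinset, Polynomial.mem_roots
        ((hPm l).map (eval y)).ne_zero, Polynomial.IsRoot, Polynomial.eval_map]
      -- evaluation at z
      let ev : (MvPolynomial (Fin n) K ⧸ vanishingIdeal K S) →+* K :=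
        Ideal.Quotient.lift _ (eval z) (fun p hp => hp z hzS)
      have hev : ∀ p, ev (Ideal.Quotient.mk _ p) = eval z p := fun p => rfl
      have h1 := congrArg ev (hP l)
      rw [Polynomial.hom_eval₂, map_zero, hev] at h1
      have h2 : ev.comp (g : MvPolynomial (Fin s) K →+* _) = eval y := by
        apply MvPolynomial.ringHom_ext
        · intro r
          rw [RingHom.comp_apply, MvPolynomial.eval_C]
          have h5 : g (C r) = Ideal.Quotient.mk (vanishingIdeal K S) (C r) := g.commutes r
          change ev (g (C r)) = r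
          rw [h5, hev, MvPolynomial.eval_C]
        · intro i
          rw [RingHom.comp_apply, MvPolynomial.eval_X]
          change ev (g (X i)) = y i
          rw [← hY i, hev, ← hzy]
      have h3 : eval z (X l : MvPolynomial (Fin n) K) = z l := MvPolynomial.eval_X _
      rw [h3] at h1
      rw [← h2]
      exact h1
    · rw [Fintype.card_piFinset]
      refine Finset.prod_le_prod (fun _ _ => Nat.zero_le _) fun l _ => ?_
      refine le_trans (Multiset.toFinset_card_le _) (le_trans (Polynomial.card_roots' _) ?_)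
      exact Polynomial.natDegree_map_le
  have hcard : cnt j S = (pts_finite j S).toFinset.card := by
    unfold cnt
    exact Set.ncard_eq_toFinset_card _ _
  rw [hcard]
  refine le_trans (Finset.card_le_mul_card_image (f := φ) _ _ fun y _ => hfib y) ?_
  refine Nat.mul_le_mul_left _ ?_
  have himg : ((pts_finite j S).toFinset.image φ).card ≤ cnt j (Set.univ : Set (Fin s → K)) := by
    have : cnt j (Set.univ : Set (Fin s → K)) =
        (pts_finite j (Set.univ : Set (Fin s → K))).toFinset.card := by
      unfold cnt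
      exact Set.ncard_eq_toFinset_card _ _
    rw [this]
    apply Finset.card_le_card
    intro y hy
    rw [Finset.mem_image] at hy
    obtain ⟨z, hz, rfl⟩ := hy
    rw [Set.Finite.mem_toFinset] at hz
    rw [Set.Finite.mem_toFinset]
    refine ⟨Set.mem_univ _, fun i => ?_⟩
    exact hc i j (le_trans (Finset.le_sup (Finset.mem_univ i)) hj) z hz.2
  refine le_trans himg ?_
  rw [cnt_univ]
  exact Nat.pow_le_pow_right (hq1 j) hsD

end Pool.Agent.Y791.MP
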