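import Pool.Agent.Y791.MP.Cst

/-! # The ratios do not converge -/

set_option autoImplicit false

open MvPolynomial Filter Topology UniformSpace
open Pool.Agent.Y791.MS (S_ELIM S_HAS S_Z0)

namespace Pool.Agent.Y791.MP

variable [Base]

/-- The pieces of `𝒵_n^d`: the tuples of zero-cycles of degrees `d i` whose parts in `U_k` have
degrees `m i` and whose greatest common divisor is `n`-powerfree. The multiplicity of the point of
`U₁` in the `i`-th cycle is `d i - k * m i`. -/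
def Zset (k n : ℕ) {r : ℕ} (d m : Fin r → ℕ) : Set (Fin (∑ i, m i) → K) :=
  {z | (∃ i, d i - k * m i < n) ∧ z ∈ Cset n m}

theorem Zset_pos {k n r : ℕ} {d m : Fin r → ℕ} (h : ∃ i, d i - k * m i < n) :
    Zset k n d m = Cset n m := by
  ext z
  exact ⟨fun hz => hz.2, fun hz => ⟨h, hz⟩⟩

theorem Zset_neg {k n r : ℕ} {d m : Fin r → ℕ} (h : ¬ ∃ i, d i - k * m i < n) :
    Zset k n d m = ∅ := by
  ext z
  simp only [Set.mem_empty_iff_false, iff_false]
  exact fun hz => h hz.1

theorem constr_Zset (hE : S_ELIM) (hH : S_HAS) {n s : ℕ} (hn : 1 ≤ n) (k : ℕ)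
    (d m : Fin (s + 1) → ℕ) : Constr (Zset k n d m) := by
  by_cases h : ∃ i, d i - k * m i < n
  · rw [Zset_pos h]
    exact constr_Cset hE hH hn m
  · rw [Zset_neg h]
    exact constr_empty _

/-- The class of a subset of `K^N` in the completed Grothendieck ring, if it is constructible. -/
noncomputable def clS {N : ℕ} (S : Set (Fin N → K)) : Mhat :=
  open Classical in if h : Constr S then cl ⟨N, S, h⟩ else 0

/-- the same before completion -/
noncomputable def clM {N : ℕ} (S : Set (Fin N → K)) : ML :=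
  open Classical in if h : Constr S then toML (cls0 ⟨N, S, h⟩) else 0

theorem clS_eq {N : ℕ} {S : Set (Fin N → K)} (h : Constr S) : clS S = cl ⟨N, S, h⟩ := by
  unfold clS
  rw [dif_pos h]

theorem clM_eq {N : ℕ} {S : Set (Fin N → K)} (h : Constr S) : clM S = toML (cls0 ⟨N, S, h⟩) := by
  unfold clM
  rw [dif_pos h]

theorem clS_coe {N : ℕ} (S : Set (Fin N → K)) : clS S = ((clM S : ML) : Mhat) := by
  unfold clS clM
  split_ifs with h
  · rfl
  · rw [Completion.coe_zero]

theorem clM_empty (N : ℕ) : clM (∅ : Set (Fin N → K)) = 0 := by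
  rw [clM_eq (constr_empty N), cls0_empty, map_zero]

/-- The class of the space `𝒳_d = ⊔_{m ≤ d/k} Sym^m 𝔸¹`. -/
noncomputable def Xd (k d : ℕ) : Mhat := ∑ m ∈ Finset.range (d / k + 1), cl (aff m)

/-- The class of the space `𝒵_n^d` of the tuples of zero-cycles of degrees `d i` whose greatest
common divisor is `n`-powerfree. -/
noncomputable def Zd (k n : ℕ) {r : ℕ} (d : Fin r → ℕ) : Mhat :=
  ∑ m ∈ Fintype.piFinset (fun i => Finset.range (d i / k + 1)), clS (Zset k n d m)

theorem isUnit_Xd (k d : ℕ) : IsUnit (Xd k d) := by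
  have h1 : Xd k d * ((((Lu : MLˣ) : ML) : Mhat) - 1) =
      (((Lu ^ (d / k + 1) : MLˣ) : ML) : Mhat) - 1 := by
    unfold Xd
    have h2 : ∀ m, cl (aff m) = (((Lu : MLˣ) : ML) : Mhat) ^ m := by
      intro m
      rw [cl_aff, Units.val_pow_eq_pow_val]
      exact map_pow (Completion.coeRingHom (α := ML)) _ m
    rw [Finset.sum_congr rfl fun m _ => h2 m, geom_sum_mul, ← h2, cl_aff]
  exact isUnit_of_mul_isUnit_left (h1 ▸ isUnit_sub (Nat.succ_le_succ (Nat.zero_le _)))

/-- `[𝒵]` before completion, for equal degrees `d` with `d / k = D` -/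
noncomputable def ZM (k n D d : ℕ) (s : ℕ) : ML :=
  ∑ m ∈ Fintype.piFinset (fun _ : Fin (s + 1) => Finset.range (D + 1)),
    clM (Zset k n (fun _ => d) m)

theorem Zd_eq {k n D d s : ℕ} (h : d / k = D) :
    Zd k n (fun _ : Fin (s + 1) => d) = ((ZM k n D d s : ML) : Mhat) := by
  unfold Zd ZM
  subst h
  have h1 : ∀ t : Finset (Fin (s + 1) → ℕ), ∀ f : (Fin (s + 1) → ℕ) → ML,
      ((∑ i ∈ t, f i : ML) : Mhat) = ∑ i ∈ t, (f i : Mhat) :=
    fun t f => map_sum (Completion.coeRingHom (α := ML)) f t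
  rw [h1]
  exact Finset.sum_congr rfl fun m _ => clS_coe _

theorem Xd_coe {k D d : ℕ} (h : d / k = D) : Xd k d = ((XM D : ML) : Mhat) := by
  unfold Xd XM cl
  rw [h]
  exact (map_sum (Completion.coeRingHom (α := ML)) _ _).symm

/-- the two ranges of degrees: `k D` and `k D + (k - 1)` -/
theorem ZM_sub {k n D s : ℕ} (hk : 2 ≤ k) (hkn : ¬ k ∣ n) (hD : n / k ≤ D) :
    ZM k n D (k * D) s - ZM k n D (k * D + (k - 1)) s =
      ∑ m ∈ (Fintype.piFinset (fun _ : Fin (s + 1) => Finset.range (D + 1))).filter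
        (fun m => (∃ i, D - m i = n / k) ∧ ∀ i, n / k ≤ D - m i), clM (Cset n m) := by
  unfold ZM
  have hsub : ∀ (f g : (Fin (s + 1) → ℕ) → ML) (t : Finset (Fin (s + 1) → ℕ)),
      ∑ m ∈ t, f m - ∑ m ∈ t, g m = ∑ m ∈ t, (f m - g m) := fun f g t =>
    (Finset.sum_sub_distrib f g).symm
  rw [hsub, Finset.sum_filter]
  refine Finset.sum_congr rfl fun m hm => ?_
  have hm' : ∀ i, m i ≤ D := fun i => by
    have := Fintype.mem_piFinset.1 hm i
    rw [Finset.mem_range] at this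
    omega
  have hn0 : 0 < n % k := Nat.pos_of_ne_zero fun h => hkn (Nat.dvd_of_mod_eq_zero h)
  have hn1 : n % k < k := Nat.mod_lt _ (by omega)
  have hn2 : k * (n / k) + n % k = n := Nat.div_add_mod n k
  have e1 : ∀ i, (k * D - k * m i < n ↔ D - m i ≤ n / k) := by
    intro i
    rw [← Nat.mul_sub]
    constructor
    · intro h
      by_contra hc
      have : k * (n / k + 1) ≤ k * (D - m i) := Nat.mul_le_mul_left k (by omega)
      rw [Nat.mul_add] at this
      omega
    · intro h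
      have : k * (D - m i) ≤ k * (n / k) := Nat.mul_le_mul_left k h
      omega
  have e2 : ∀ i, (k * D + (k - 1) - k * m i < n ↔ D - m i < n / k) := by
    intro i
    have h3 : k * D + (k - 1) - k * m i = k * (D - m i) + (k - 1) := by
      rw [Nat.mul_sub]
      have := Nat.mul_le_mul_left k (hm' i)
      omega
    rw [h3]
    constructor
    · intro h
      by_contra hc
      have : k * (n / k) ≤ k * (D - m i) := Nat.mul_le_mul_left k (by omega)
      omega
    · intro h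
      have : k * (D - m i + 1) ≤ k * (n / k) := Nat.mul_le_mul_left k (by omega)
      rw [Nat.mul_add] at this
      omega
  by_cases h1 : ∃ i, D - m i < n / k
  · have h2 : ∃ i, k * D - k * m i < n := by
      obtain ⟨i, hi⟩ := h1
      exact ⟨i, (e1 i).2 hi.le⟩
    have h3 : ∃ i, k * D + (k - 1) - k * m i < n := by
      obtain ⟨i, hi⟩ := h1
      exact ⟨i, (e2 i).2 hi⟩
    rw [Zset_pos h2, Zset_pos h3, sub_self, if_neg]
    rintro ⟨-, h4⟩
    obtain ⟨i, hi⟩ := h1
    have := h4 i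
    omega
  · have h3 : ¬ ∃ i, k * D + (k - 1) - k * m i < n := by
      rintro ⟨i, hi⟩
      exact h1 ⟨i, (e2 i).1 hi⟩
    push Not at h1
    rw [Zset_neg h3, clM_empty, sub_zero]
    by_cases h4 : ∃ i, D - m i = n / k
    · have h2 : ∃ i, k * D - k * m i < n := by
        obtain ⟨i, hi⟩ := h4
        exact ⟨i, (e1 i).2 hi.le⟩
      rw [Zset_pos h2, if_pos ⟨h4, h1⟩]
    · have h2 : ¬ ∃ i, k * D - k * m i < n := by
        rintro ⟨i, hi⟩
        exact h4 ⟨i, le_antisymm ((e1 i).1 hi) (h1 i)⟩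
      rw [Zset_neg h2, clM_empty, if_neg]
      exact fun h => h4 h.1

theorem real_clM {N : ℕ} {S : Set (Fin N → K)} (h : Constr S) :
    real (clM S) = ((fun j => (cnt j S : ℝ) : ℕ → ℝ) : G) := by
  rw [clM_eq h, real_toML, real1_cls0]
  rfl

/-- The difference is large. -/
theorem sub_notMem (hE : S_ELIM) (hH : S_HAS) (hZ : S_Z0) {k n D s : ℕ} (hk : 2 ≤ k) (hn : 1 ≤ n)
    (hkn : ¬ k ∣ n) (hsn : 2 ≤ (s + 1) * n) (hD : n / k < D) :
    ZM k n D (k * D) s - ZM k n D (k * D + (k - 1)) s ∉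
      Fil (((s + 1) * (n / k) + 1 : ℕ) + (-(((s + 1) * D : ℕ) : ℤ))) := by
  classical
  intro h
  rw [ZM_sub hk hkn hD.le] at h
  obtain ⟨f, hf, C, hC⟩ := real_Fil _ _ h
  set T := (Fintype.piFinset (fun _ : Fin (s + 1) => Finset.range (D + 1))).filter
        (fun m => (∃ i, D - m i = n / k) ∧ ∀ i, n / k ≤ D - m i) with hT
  have h1 : real (∑ m ∈ T, clM (Cset n m)) =
      ((fun j => ∑ m ∈ T, (cnt j (Cset n m) : ℝ) : ℕ → ℝ) : G) := by
    have h2 : ∀ m : Fin (s + 1) → ℕ, real (clM (Cset n m)) =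
        ((fun j => (cnt j (Cset n m) : ℝ) : ℕ → ℝ) : G) := fun m =>
      real_clM (constr_Cset hE hH hn m)
    simp only [map_sum, h2]
    have h3 : ∀ t : Finset (Fin (s + 1) → ℕ), ∀ f : (Fin (s + 1) → ℕ) → (ℕ → ℝ),
        ∑ i ∈ t, ((f i : ℕ → ℝ) : G) =
        ((∑ i ∈ t, f i : ℕ → ℝ) : G) := fun t f =>
      (map_sum (Germ.coeRingHom (atTop : Filter ℕ) : (ℕ → ℝ) →+* G) f t).symm
    simp only [h3]
    refine Germ.coe_eq.2 (Eventually.of_forall fun j => ?_)
    simp only [Finset.sum_apply]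
  rw [hf] at h1
  have h2 := Germ.coe_eq.1 h1
  have he : 1 ≤ D - n / k := by omega
  obtain ⟨B, hB⟩ := cnt_Cset hE hH hZ hn hsn he
  have hmem : (fun _ : Fin (s + 1) => D - n / k) ∈ T := by
    rw [hT, Finset.mem_filter, Fintype.mem_piFinset]
    exact ⟨fun i => Finset.mem_range.2 (Nat.lt_succ_of_le (Nat.sub_le _ _)),
      ⟨0, Nat.sub_sub_self hD.le⟩, fun i => (Nat.sub_sub_self hD.le).ge⟩
  have h3 : ∀ᶠ j in atTop, (q j : ℝ) ≤ C + B := by
    filter_upwards [h2, hC] with j hj hCj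
    rw [hj] at hCj
    have h4 : (cnt j (Cset n (fun _ : Fin (s + 1) => D - n / k)) : ℝ) ≤
        ∑ m ∈ T, (cnt j (Cset n m) : ℝ) :=
      Finset.single_le_sum (f := fun m => (cnt j (Cset n m) : ℝ))
        (fun i _ => Nat.cast_nonneg _) hmem
    have h5 := (le_abs_self _).trans hCj
    have h6 := (hB j).trans (h4.trans h5)
    have hge : 1 ≤ (s + 1) * (D - n / k) := Nat.mul_pos (Nat.succ_pos s) he
    have h7 : (q j : ℝ) ^ (-((((s + 1) * (n / k) + 1 : ℕ) : ℤ) + (-(((s + 1) * D : ℕ) : ℤ)))) =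
        (q j : ℝ) ^ ((s + 1) * (D - n / k) - 1) := by
      rw [← zpow_natCast]
      congr 1
      rw [Nat.cast_sub hge, Nat.cast_mul _ (D - n / k), Nat.cast_sub hD.le]
      push_cast
      ring
    rw [h7] at h6
    have h8 : (q j : ℝ) ^ ((s + 1) * (D - n / k)) =
        q j * (q j : ℝ) ^ ((s + 1) * (D - n / k) - 1) := by
      rw [← pow_succ']
      congr 1
      omega
    rw [h8] at h6
    have h9 : (q j : ℝ) * (q j : ℝ) ^ ((s + 1) * (D - n / k) - 1) ≤
        (C + B) * (q j : ℝ) ^ ((s + 1) * (D - n / k) - 1) := by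
      linarith
    exact le_of_mul_le_mul_right h9 (pow_pos (q_pos j) _)
  have h4 : Tendsto (fun j => (q j : ℝ)) atTop atTop := by
    refine tendsto_atTop_mono (f := fun j : ℕ => (j : ℝ)) (fun j => ?_) tendsto_natCast_atTop_atTop
    have : j ≤ q j := by
      unfold q
      calc j ≤ j.factorial := Nat.self_le_factorial j
        _ ≤ 54 * j.factorial := Nat.le_mul_of_pos_left _ (by norm_num)
        _ ≤ Base.p ^ (54 * j.factorial) := (Nat.lt_pow_self Base.prime.out.one_lt).le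
    exact_mod_cast this
  obtain ⟨j, hj1, hj2⟩ := (h3.and (h4.eventually_gt_atTop (C + B))).exists
  linarith

theorem FH_mul_pow {x : Mhat} {M : ℤ} (hx : x ∈ FH M) (D : ℕ) (t : ℕ) :
    x * ((XM D : ML) : Mhat) ^ t ∈ FH (M + (-((t * D : ℕ) : ℤ))) := by
  induction t with
  | zero => simpa using hx
  | succ t ih =>
    have h := FH_mul ih (XM_mem D)
    rw [pow_succ, ← mul_assoc]
    have e : M + (-((t * D : ℕ) : ℤ)) + (-(D : ℤ)) = M + (-(((t + 1) * D : ℕ) : ℤ)) := by
      push_cast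
      ring
    rwa [e] at h

/-- The ratios have no limit, even if all the degrees are equal. -/
theorem no_limit (hE : S_ELIM) (hH : S_HAS) (hZ : S_Z0) {k n s : ℕ} (hk : 2 ≤ k) (hn : 1 ≤ n)
    (hkn : ¬ k ∣ n) (hsn : 2 ≤ (s + 1) * n) (t : Mhat) :
    ¬ Tendsto (fun d : ℕ => Zd k n (fun _ : Fin (s + 1) => d) *
      Ring.inverse (∏ _i : Fin (s + 1), Xd k d)) atTop (𝓝 t) := by
  intro h
  have hT : ∀ c : ℕ, Tendsto (fun D : ℕ => k * D + c) atTop atTop := by
    intro c
    refine tendsto_atTop_atTop.2 fun b => ⟨b, fun D hD => ?_⟩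
    have h2 : D ≤ k * D := Nat.le_mul_of_pos_left _ (by omega)
    omega
  have h1 := (h.comp (hT 0)).sub (h.comp (hT (k - 1)))
  rw [sub_self] at h1
  have h3 := h1.eventually_mem (FH_mem_nhds (((s + 1) * (n / k) + 1 : ℕ) : ℤ))
  obtain ⟨D, hm1, hm2⟩ := (h3.and (eventually_gt_atTop (n / k))).exists
  simp only [Function.comp_apply, add_zero] at hm1
  have e0 : k * D / k = D := Nat.mul_div_cancel_left _ (by omega)
  have e1 : (k * D + (k - 1)) / k = D := by
    rw [Nat.mul_add_div (by omega), Nat.div_eq_of_lt (by omega), add_zero]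
  rw [Zd_eq e0, Zd_eq e1] at hm1
  simp only [Finset.prod_const, Finset.card_univ, Fintype.card_fin, Xd_coe e0, Xd_coe e1] at hm1
  rw [← sub_mul] at hm1
  have h4 := FH_mul_pow hm1 D (s + 1)
  have hu : IsUnit (((XM D : ML) : Mhat) ^ (s + 1)) := by
    rw [← Xd_coe e0]
    exact (isUnit_Xd k _).pow _
  rw [mul_assoc, Ring.inverse_mul_cancel _ hu, mul_one, ← Completion.coe_sub] at h4
  exact sub_notMem hE hH hZ hk hn hkn hsn hm2 (mem_Fil_of_FH h4)

end Pool.Agent.Y791.MP
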