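import Pool.Agent.Y791.MP.Mo1

/-!
# Products: constructibility and dimension
-/

open MvPolynomial

namespace Pool.Agent.Y791.MP

variable [Base]

theorem constr_pull {n m : ℕ} (σ : Fin n → Fin m) {S : Set (Fin n → K)} (h : Constr S) :
    Constr {z : Fin m → K | (fun i => z (σ i)) ∈ S} := by
  induction h with
  | zero P =>
    have := Constr.zero (rename σ P)
    simp only [eval_rename] at this
    exact this
  | compl _ ih => exact Constr.compl ih
  | inter _ _ ih1 ih2 => exact Constr.inter ih1 ih2

theorem constr_prod {n m : ℕ} {S : Set (Fin n → K)} {T : Set (Fin m → K)} (hS : Constr S)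
    (hT : Constr T) : Constr (prodSet S T) :=
  Constr.inter (constr_pull (Fin.castAdd m) hS) (constr_pull (Fin.natAdd n) hT)

theorem constr_empty (n : ℕ) : Constr (∅ : Set (Fin n → K)) := by
  have h := Constr.compl (constr_univ n)
  rwa [Set.compl_univ] at h

theorem krullDim_le_of_isIntegral {R A : Type} [CommRing R] [CommRing A] (f : R →+* A)
    (hf : f.IsIntegral) : ringKrullDim A ≤ ringKrullDim R := by
  letI := f.toAlgebra
  haveI : Algebra.IsIntegral R A := ⟨hf⟩
  refine Order.krullDim_le_of_strictMono (PrimeSpectrum.comap (algebraMap R A)) ?_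
  intro I J hIJ
  haveI := I.isPrime
  exact Ideal.IsIntegral.comap_lt_comap (R := R) (show I.asIdeal < J.asIdeal from hIJ)

theorem DimLe.prod {n m : ℕ} {S : Set (Fin n → K)} {T : Set (Fin m → K)} {D E : ℕ}
    (hS : DimLe S D) (hT : DimLe T E) : DimLe (prodSet S T) (D + E) := by
  classical
  by_cases hST : prodSet S T = ∅
  · unfold DimLe
    rw [hST, vanishingIdeal_empty]
    haveI : Subsingleton (MvPolynomial (Fin (n + m)) K ⧸ (⊤ : Ideal (MvPolynomial (Fin (n + m)) K))) :=
      Ideal.Quotient.subsingleton_iff.2 rfl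
    rw [ringKrullDim_eq_bot_of_subsingleton]
    exact bot_le
  obtain ⟨z₀, hz₀, hz₁⟩ := Set.nonempty_iff_ne_empty.2 hST
  have hneS : vanishingIdeal K S ≠ ⊤ := by
    intro ht
    have h1 : (1 : MvPolynomial (Fin n) K) ∈ vanishingIdeal K S := ht ▸ Submodule.mem_top
    have := h1 _ hz₀
    simp at this
  have hneT : vanishingIdeal K T ≠ ⊤ := by
    intro ht
    have h1 : (1 : MvPolynomial (Fin m) K) ∈ vanishingIdeal K T := ht ▸ Submodule.mem_top
    have := h1 _ hz₁
    simp at this
  obtain ⟨s, -, g, ginj, gint⟩ := exists_integral_inj_algHom_of_quotient (vanishingIdeal K S) hneS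
  obtain ⟨t, -, h, hinj, hint⟩ := exists_integral_inj_algHom_of_quotient (vanishingIdeal K T) hneT
  have hsD : s ≤ D := cnt_growth_dim g.toRingHom ginj gint D hS
  have htE : t ≤ E := cnt_growth_dim h.toRingHom hinj hint E hT
  have hα : vanishingIdeal K S ≤ (vanishingIdeal K (prodSet S T)).comap
      (rename (Fin.castAdd m) : MvPolynomial (Fin n) K →ₐ[K] _) := by
    intro p hp x hx
    have := hp _ hx.1
    rw [aeval_rename]
    exact this
  have hβ : vanishingIdeal K T ≤ (vanishingIdeal K (prodSet S T)).comap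
      (rename (Fin.natAdd n) : MvPolynomial (Fin m) K →ₐ[K] _) := by
    intro p hp x hx
    have := hp _ hx.2
    rw [aeval_rename]
    exact this
  set α := Ideal.quotientMapₐ (vanishingIdeal K (prodSet S T)) (rename (Fin.castAdd m)) hα with hαd
  set β := Ideal.quotientMapₐ (vanishingIdeal K (prodSet S T)) (rename (Fin.natAdd n)) hβ with hβd
  let φ : MvPolynomial (Fin s ⊕ Fin t) K →ₐ[K]
      (MvPolynomial (Fin (n + m)) K ⧸ vanishingIdeal K (prodSet S T)) :=
    aeval (Sum.elim (fun i => α (g (X i))) (fun j => β (h (X j))))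
  have hφα : φ.comp (rename Sum.inl) = α.comp g := by
    ext i
    simp [φ]
  have hφβ : φ.comp (rename Sum.inr) = β.comp h := by
    ext i
    simp [φ]
  have hint1 : ∀ x, φ.toRingHom.IsIntegralElem (α x) := by
    intro x
    obtain ⟨p, hp, hpx⟩ := gint x
    refine ⟨p.map (rename Sum.inl : MvPolynomial (Fin s) K →ₐ[K] _).toRingHom, hp.map _, ?_⟩
    rw [Polynomial.eval₂_map]
    have h1 : φ.toRingHom.comp (rename Sum.inl : MvPolynomial (Fin s) K →ₐ[K] _).toRingHom =
        α.toRingHom.comp g.toRingHom := by
      have := congrArg AlgHom.toRingHom hφα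
      exact this
    rw [h1]
    have h2 := Polynomial.hom_eval₂ p g.toRingHom α.toRingHom x
    rw [show Polynomial.eval₂ g.toRingHom x p = 0 from hpx, map_zero] at h2
    exact h2.symm
  have hint2 : ∀ x, φ.toRingHom.IsIntegralElem (β x) := by
    intro x
    obtain ⟨p, hp, hpx⟩ := hint x
    refine ⟨p.map (rename Sum.inr : MvPolynomial (Fin t) K →ₐ[K] _).toRingHom, hp.map _, ?_⟩
    rw [Polynomial.eval₂_map]
    have h1 : φ.toRingHom.comp (rename Sum.inr : MvPolynomial (Fin t) K →ₐ[K] _).toRingHom =
        β.toRingHom.comp h.toRingHom := by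
      have := congrArg AlgHom.toRingHom hφβ
      exact this
    rw [h1]
    have h2 := Polynomial.hom_eval₂ p h.toRingHom β.toRingHom x
    rw [show Polynomial.eval₂ h.toRingHom x p = 0 from hpx, map_zero] at h2
    exact h2.symm
  have hφint : φ.toRingHom.IsIntegral := by
    intro y
    obtain ⟨P, rfl⟩ := Ideal.Quotient.mk_surjective y
    induction P using MvPolynomial.induction_on with
    | C a =>
      have : (Ideal.Quotient.mk (vanishingIdeal K (prodSet S T)) (C a)) = φ.toRingHom (C a) := by
        have := φ.commutes a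
        exact this.symm
      rw [this]
      exact RingHom.isIntegralElem_map _
    | add p q hp hq => rw [map_add]; exact RingHom.IsIntegralElem.add _ hp hq
    | mul_X p i hp =>
      rw [map_mul]
      refine RingHom.IsIntegralElem.mul _ hp ?_
      refine Fin.addCases (fun i => ?_) (fun i => ?_) i
      · have := hint1 (Ideal.Quotient.mk _ (X i))
        have h3 : α (Ideal.Quotient.mk _ (X i)) = Ideal.Quotient.mk _ (X (Fin.castAdd m i)) := by
          rw [hαd]
          simp
        rwa [h3] at this
      · have := hint2 (Ideal.Quotient.mk _ (X i))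
        have h3 : β (Ideal.Quotient.mk _ (X i)) = Ideal.Quotient.mk _ (X (Fin.natAdd n i)) := by
          rw [hβd]
          simp
        rwa [h3] at this
  unfold DimLe
  refine le_trans (krullDim_le_of_isIntegral φ.toRingHom hφint) ?_
  rw [MvPolynomial.ringKrullDim_of_isNoetherianRing, ringKrullDim_eq_zero_of_field]
  simp only [Nat.card_eq_fintype_card, Fintype.card_sum, Fintype.card_fin, zero_add]
  exact_mod_cast Nat.add_le_add hsD htE

theorem dimLe_univ (n : ℕ) : DimLe (Set.univ : Set (Fin n → K)) n := by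
  unfold DimLe
  refine le_trans (ringKrullDim_quotient_le _) ?_
  rw [MvPolynomial.ringKrullDim_of_isNoetherianRing, ringKrullDim_eq_zero_of_field]
  simp

theorem DimLe.mono {n : ℕ} {S : Set (Fin n → K)} {D E : ℕ} (h : DimLe S D) (hDE : D ≤ E) :
    DimLe S E := by
  unfold DimLe at *
  refine le_trans h ?_
  exact_mod_cast hDE

end Pool.Agent.Y791.MP
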