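import Pool.Agent.Y791.MP.Mo4

/-!
# The completed Grothendieck ring: classes and filtration
-/

set_option autoImplicit false

open MvPolynomial Filter Topology UniformSpace

namespace Pool.Agent.Y791.MP

variable [Base]

/-- The monic polynomial `x^m + a_{m-1} x^{m-1} + ⋯ + a_0`, i.e. the effective zero-cycle of degree
`m` on the affine line over `K` whose multiplicity at each point is the root multiplicity. -/
noncomputable def mono {m : ℕ} (a : Fin m → K) : Polynomial K :=
  Polynomial.X ^ m + ∑ i, Polynomial.C (a i) * Polynomial.X ^ (i : ℕ)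

theorem degree_sum_lt {R : Type} [CommRing R] {m : ℕ} (a : Fin m → R) :
    (∑ i, Polynomial.C (a i) * Polynomial.X ^ (i : ℕ)).degree < (m : WithBot ℕ) := by
  exact Polynomial.degree_sum_fin_lt a

theorem monic_gen {R : Type} [CommRing R] {m : ℕ} (a : Fin m → R) :
    (Polynomial.X ^ m + ∑ i, Polynomial.C (a i) * Polynomial.X ^ (i : ℕ)).Monic :=
  Polynomial.monic_X_pow_add (degree_sum_lt a)

theorem natDegree_gen {R : Type} [CommRing R] [Nontrivial R] {m : ℕ} (a : Fin m → R) :
    (Polynomial.X ^ m + ∑ i, Polynomial.C (a i) * Polynomial.X ^ (i : ℕ)).natDegree = m := by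
  rw [Polynomial.natDegree_add_eq_left_of_degree_lt, Polynomial.natDegree_X_pow]
  rw [Polynomial.degree_X_pow]
  exact degree_sum_lt a

/-- The class of a constructible set in the completed Grothendieck ring. -/
noncomputable def cl (v : Cs) : Mhat := ((toML (cls0 v) : ML) : Mhat)

theorem Fil_mem_nhds (m : ℤ) : (Fil m : Set ML) ∈ 𝓝 (0 : ML) :=
  basis.hasBasis_nhds_zero.mem_of_mem trivial

theorem isClosed_Fil (m : ℤ) : IsClosed (Fil m : Set ML) :=
  (basis.openAddSubgroup m).isClosed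

/-- the closure of `F_m` in the completion -/
def FH (m : ℤ) : Set Mhat := closure ((fun x : ML => (x : Mhat)) '' (Fil m : Set ML))

theorem FH_mem_nhds (m : ℤ) : FH m ∈ 𝓝 (0 : Mhat) := by
  have := (Completion.isDenseInducing_coe (α := ML)).closure_image_mem_nhds (Fil_mem_nhds m)
  rwa [Completion.coe_zero] at this

theorem FH_mul {m k : ℤ} {x : Mhat} {y : ML} (hx : x ∈ FH m) (hy : y ∈ Fil k) :
    x * (y : Mhat) ∈ FH (m + k) := by
  refine map_mem_closure (f := fun x : Mhat => x * (y : Mhat)) (continuous_mul_const _) hx ?_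
  rintro _ ⟨z, hz, rfl⟩
  exact ⟨z * y, Fil_mul hz hy, Completion.coe_mul _ _⟩

theorem mem_Fil_of_FH {m : ℤ} {z : ML} (h : (z : Mhat) ∈ FH m) : z ∈ Fil m := by
  have h1 := (Completion.isUniformInducing_coe ML).isInducing.closure_eq_preimage_closure_image
    (Fil m : Set ML)
  rw [(isClosed_Fil m).closure_eq] at h1
  have : z ∈ (Fil m : Set ML) := by
    rw [h1]
    exact h
  exact this

theorem summable_geom {k : ℕ} (hk : 1 ≤ k) :
    Summable fun i : ℕ => (((Lu ^ (-(k : ℤ)) : MLˣ) : ML) : Mhat) ^ i := by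
  refine NonarchimedeanAddGroup.summable_of_tendsto_cofinite_zero ?_
  rw [Nat.cofinite_eq_atTop]
  have h1 : Tendsto (fun i : ℕ => ((Lu ^ (-(k : ℤ)) : MLˣ) : ML) ^ i) atTop (𝓝 0) := by
    rw [basis.hasBasis_nhds_zero.tendsto_right_iff]
    intro m _
    filter_upwards [eventually_ge_atTop m.toNat] with i hi
    have h2 : ((Lu ^ (-(k : ℤ)) : MLˣ) : ML) ^ i = ((Lu ^ (-((k : ℤ) * i)) : MLˣ) : ML) := by
      rw [← Units.val_pow_eq_pow_val, ← zpow_natCast, ← zpow_mul, neg_mul]
    rw [h2]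
    refine Fil_anti ?_ (zpow_mem _)
    have h3 : m ≤ i := Int.toNat_le.1 hi
    have h4 : (i : ℤ) ≤ k * i := by
      have : (1 : ℤ) ≤ k := by exact_mod_cast hk
      nlinarith
    linarith
  have h2 := ((Completion.continuous_coe ML).tendsto 0).comp h1
  rw [Completion.coe_zero] at h2
  refine h2.congr fun i => ?_
  simp only [Function.comp_apply]
  exact map_pow (Completion.coeRingHom (α := ML)) _ i

theorem isUnit_sub {k : ℕ} (hk : 1 ≤ k) : IsUnit ((((Lu ^ k : MLˣ) : ML) : Mhat) - 1) := by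
  have h1 := (summable_geom hk).one_sub_mul_tsum_pow
  have h2 : IsUnit (1 - (((Lu ^ (-(k : ℤ)) : MLˣ) : ML) : Mhat)) := IsUnit.of_mul_eq_one _ h1
  have h3 : (((Lu ^ k : MLˣ) : ML) : Mhat) * (((Lu ^ (-(k : ℤ)) : MLˣ) : ML) : Mhat) = 1 := by
    rw [← Completion.coe_mul, ← Units.val_mul, ← zpow_natCast, ← zpow_add, add_neg_cancel,
      zpow_zero, Units.val_one]
    exact Completion.coe_one ML
  have h4 : IsUnit (((Lu ^ k : MLˣ) : ML) : Mhat) := IsUnit.of_mul_eq_one _ h3
  have h5 := h4.mul h2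
  rwa [mul_sub, mul_one, h3] at h5

theorem cl_aff (m : ℕ) : cl (aff m) = (((Lu ^ m : MLˣ) : ML) : Mhat) := by
  unfold cl
  rw [cls0_aff, map_pow, ← val_Lu, Units.val_pow_eq_pow_val]

/-- `[𝒳_{2m}]` before completion -/
noncomputable def XM (m : ℕ) : ML := ∑ i ∈ Finset.range (m + 1), toML (cls0 (aff i))

theorem XM_mem (m : ℕ) : XM m ∈ Fil (-(m : ℤ)) := by
  refine sum_mem fun i hi => ?_
  rw [Finset.mem_range] at hi
  refine AddSubgroup.subset_closure ⟨aff i, i, 0, dimLe_univ i, by omega, ?_⟩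
  rw [neg_zero, zpow_zero, Units.val_one, mul_one]

/-- The class of the affine line in the completed Grothendieck ring. -/
noncomputable def LL : Mhat := cl (aff 1)

theorem LL_eq : LL = (((Lu : MLˣ) : ML) : Mhat) := by
  unfold LL
  rw [cl_aff, pow_one]

theorem isUnit_LL : IsUnit LL := by
  rw [LL_eq]
  have h3 : (((Lu : MLˣ) : ML) : Mhat) * (((Lu⁻¹ : MLˣ) : ML) : Mhat) = 1 := by
    rw [← Completion.coe_mul, ← Units.val_mul, mul_inv_cancel, Units.val_one]
    exact Completion.coe_one ML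
  exact IsUnit.of_mul_eq_one _ h3

theorem cl_aff' (m : ℕ) : cl (aff m) = LL ^ m := by
  rw [cl_aff, LL_eq, Units.val_pow_eq_pow_val]
  exact map_pow (Completion.coeRingHom (α := ML)) _ m

end Pool.Agent.Y791.MP
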